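import Mathlib

/-!
Statements of the modules of the proof that the Poljak-Roedl function is bounded by four.

One factor is a graph `X` of sign vectors with at most `K` sign changes on an ordered set
(a discrete Borsuk graph of dimension `K`), the other one is an iterated shift graph on the same
ordered set.  Their product is coloured with four colours by a machine which reads the signs at the
places of a vertex of the shift graph; the machine follows a point on the sphere of dimension two.
-/

namespace Pool.PR4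

open Finset

/-- `B` arises from `A` by filling zeros. -/
def Le {M : ℕ} (A B : Fin M → SignType) : Prop := ∀ j, A j = 0 ∨ A j = B j

/-- The sign `(-1) ^ n`. -/
def sg (n : ℕ) : SignType := if Even n then 1 else -1

/-- At most `K` sign changes: outside a set `P` of at most `K` places the vector `A` is nonzero,
constant between consecutive elements of `P`, and its sign changes at every element of `P`. -/
def Few {M : ℕ} (K : ℕ) (A : Fin M → SignType) : Prop :=
  ∃ (P : Finset (Fin M)) (s : SignType), s ≠ 0 ∧ #P ≤ K ∧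
    ∀ j, j ∉ P → A j = s * sg #{p ∈ P | p < j}

/-! ### The lower bound for the chromatic number of `X` (Borsuk-Ulam, Fan's lemma) -/

/-- Ordered by absolute values, the signs of the members of `l` alternate, beginning with plus. -/
def Alt (l : List ℤ) : Prop :=
  (l.map Int.natAbs).Nodup ∧
    ∀ x ∈ l, (0 < x ↔ Even (l.countP fun y => decide (y.natAbs < x.natAbs)))

open scoped Classical in
/-- The indicator of `Alt`, modulo two. -/
noncomputable def av (l : List ℤ) : ZMod 2 := if Alt l then 1 else 0

/-- Module ALT.  Both sides do not depend on the order of `l`.  If a member is repeated, both sides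
are zero.  Otherwise sort by absolute value and put `b i := (0 < l_i ↔ Even i)`; the summand of `r`
is one iff `b i` for all `i < r` and not `b i` for all `i > r`; induction on the length. -/
def SAlt : Prop := ∀ l : List ℤ, l ≠ [] → (∀ x ∈ l, x ≠ 0) → (∀ x ∈ l, -x ∉ l) →
  ∑ r ∈ range l.length, av (l.eraseIdx r) = av l + av (l.map fun x => -x)

/-- The sum of `g (l ++ [lam B_0, ..., lam B_k])` over all sequences `A = B_0, ..., B_k` in which
`B_(i+1)` arises from `B_i` by giving a sign to one zero. -/
def cell {M : ℕ} (lam : (Fin M → SignType) → ℤ) (g : List ℤ → ZMod 2) :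
    ℕ → (Fin M → SignType) → List ℤ → ZMod 2
  | 0, A, l => g (l ++ [lam A])
  | k + 1, A, l => ∑ i ∈ univ.filter (fun i => A i = 0),
      (cell lam g k (Function.update A i 1) (l ++ [lam A]) +
        cell lam g k (Function.update A i (-1)) (l ++ [lam A]))

/-- Module CELL.  Removal of the first label gives the left side, all other removals cancel:
the top one because of the two signs, the inner ones because two fillings can be exchanged. -/
def SCell : Prop := ∀ (M : ℕ) (lam : (Fin M → SignType) → ℤ) (g : List ℤ → ZMod 2) (k : ℕ)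
  (A : Fin M → SignType), #{i | A i = 0} = k + 1 →
  ∑ i ∈ univ.filter (fun i => A i = 0), (cell lam g k (Function.update A i 1) [] +
      cell lam g k (Function.update A i (-1)) []) =
    cell lam (fun l => ∑ r ∈ range l.length, g (l.eraseIdx r)) (k + 1) A []

/-- The vector with zeros in `P` whose sign changes at every zero, beginning with plus. -/
def vec {M : ℕ} (P : Finset (Fin M)) : Fin M → SignType :=
  fun x => if x ∈ P then 0 else sg #{p ∈ P | p < x}

/-- Module BD (telescoping).  For `P' = P \ {p}` and `y ≤ M` let `B_y` be `vec P'` with opposite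
signs at the places `≥ y`; then the two vectors of the left side are `B_(p+1)` and `B_p`, and
`B_p = B_(p+1)` for `p ∈ P'`. -/
def SBd : Prop := ∀ (M j : ℕ) (al : (Fin M → SignType) → ZMod 2),
  ∑ P ∈ powersetCard (j + 1) (univ : Finset (Fin M)), ∑ p ∈ P,
      (al (Function.update (vec P) p 1) + al (Function.update (vec P) p (-1))) =
    ∑ P ∈ powersetCard j (univ : Finset (Fin M)), (al (vec P) + al (-vec P))

/-- Module LOWER (from ALT, CELL, BD). -/
def SLower : Prop := ∀ K M : ℕ, K < M → ∀ col : (Fin M → SignType) → Fin (K + 1),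
  ∃ A B, Few K A ∧ Few K B ∧ Le A B ∧ col A = col (-B)

/-! ### The shift graph -/

/-- Module SHIFT.  From a colouring `col` of the `(m+2)`-tuples with `n` colours get a colouring of
the `(m+1)`-tuples with `2 ^ n` colours: the set of colours of the tuples `(U, x)`. -/
def SShift : Prop := ∀ m n : ℕ, ∃ N : ℕ, ∀ col : (Fin (m + 1) → Fin N) → Fin n,
  ∃ V : Fin (m + 2) → Fin N, StrictMono V ∧
    col (fun i => V i.castSucc) = col (fun i => V i.succ)

/-! ### The machine -/

/-- One step of the machine.  The first component is the latitude, in `[0, 8 R]`. -/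
def step (R : ℤ) (s : ℤ × ℤ) (x : SignType) : ℤ × ℤ :=
  (max 0 (min (8 * R) (s.1 - (x : ℤ))),
    max 0 (s.2 + R - 2 * max 0 (R - min s.1 (8 * R - s.1))))

/-- The state after the inputs `u a, ..., u (a + n - 1)`. -/
def st (R : ℤ) (u : ℕ → SignType) (a : ℕ) : ℕ → ℤ × ℤ
  | 0 => (4 * R, 0)
  | n + 1 => step R (st R u a n) (u (a + n))

/-- The colour of a state. -/
def colr (R a b : ℤ) : Fin 4 :=
  if a ≤ 2 * R then 0 else if 6 * R ≤ a then 1 else
    if 4 * (b % (2 * (R * R))) < R * R ∨ 7 * (R * R) ≤ 4 * (b % (2 * (R * R))) then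
      (if a < 4 * R then 0 else 1)
    else if b % (2 * (R * R)) < R * R then 2 else 3

/-- Module EQV. -/
def SEqv : Prop := (∀ (R : ℤ) (u : ℕ → SignType) (a n : ℕ), 0 ≤ R →
    st R (fun x => -u x) a n = (8 * R - (st R u a n).1, (st R u a n).2)) ∧
  (∀ (R : ℤ) (u v : ℕ → SignType) (a b n : ℕ), (∀ x < n, u (a + x) = v (b + x)) →
    st R u a n = st R v b n) ∧
  (∀ (R : ℤ) (u : ℕ → SignType) (a n : ℕ), 0 ≤ R →
    0 ≤ (st R u a n).1 ∧ (st R u a n).1 ≤ 8 * R ∧ 0 ≤ (st R u a n).2 ∧ (st R u a n).2 ≤ R * n)

/-- Module FORGET.  A long constant stretch brings the machine to a pole (after `8 R` steps), with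
second component zero (it decreases by `R` with every step at the pole). -/
def SForget : Prop := ∀ (R : ℕ) (u : ℕ → SignType) (a a' b L t : ℕ) (s : SignType), 0 < R → s ≠ 0 →
  a ≤ a' → a' ≤ b → 16 * R + (b - a) ≤ L → b + L ≤ t →
  (∀ x, b ≤ x → x < b + L → u x = s) → st R u a (t - a) = st R u a' (t - a')

/-- Module CLOSE. -/
def SClose : Prop := ∀ (R : ℤ) (u v : ℕ → SignType) (a n K : ℕ) (D : Finset ℕ), 0 ≤ R → #D ≤ K →
  (∀ x, x ∉ D → u x = v x) → (∀ x, u x = 0 ∨ v x = 0 ∨ u x = v x) →
  |(st R u a n).1 - (st R v a n).1| ≤ K ∧ |(st R u a n).2 - (st R v a n).2| ≤ 2 * K * n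

/-- Module BAND. -/
def SBand : Prop := ∀ (R : ℕ) (u : ℕ → SignType) (a n : ℕ), 0 < R →
  |(st R u a (n + R)).1 - (st R u a n).1| ≤ R ∧
  (2 * (R : ℤ) < (st R u a n).1 → (st R u a n).1 < 6 * R →
    (st R u a (n + R)).2 = (st R u a n).2 + R * R)

/-- Module COL. -/
def SCol : Prop := ∀ R K a b a' b' e : ℤ, 0 ≤ K → K < R → |a - a'| ≤ R + K → 4 * e < R * R →
  (2 * R < a → a < 6 * R → |b' - b - R * R| ≤ e) → colr R a b ≠ colr R (8 * R - a') b'

/-- Module RULE (from EQV, FORGET, CLOSE, BAND, COL). -/
def SRule : Prop := ∀ K : ℕ, ∃ m R : ℕ, 0 < R ∧ ∀ N : ℕ,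
  ∃ F : (Fin (N * R) → SignType) → (Fin (m + 1) → Fin N) → Fin 4,
    ∀ A B : Fin (N * R) → SignType, Few K A → Few K B → Le A B →
      ∀ V : Fin (m + 2) → Fin N, StrictMono V →
        F A (fun i => V i.castSucc) ≠ F (-B) (fun i => V i.succ) ∧
        F B (fun i => V i.castSucc) ≠ F (-A) (fun i => V i.succ)

/-- Module MAIN (from LOWER, SHIFT, RULE): the frozen statement S08068. -/
def SMain : Prop :=
    ¬ (∃ n : ℕ, ∀ (V W : Type) [Fintype V] [Fintype W] (G : SimpleGraph V) (H : SimpleGraph W),
      G.chromaticNumber = (n : ℕ∞) → H.chromaticNumber = (n : ℕ∞) →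
        (5 : ℕ∞) ≤ (SimpleGraph.fromRel
          (fun p q : V × W => G.Adj p.1 q.1 ∧ H.Adj p.2 q.2)).chromaticNumber)

end Pool.PR4
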